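import Pool.Agent.H28.RC.Targets2

set_option autoImplicit false

namespace Pool.Agent.H79.RC

open Pool.Agent.H28.RC Pool.Agent.H25 Complex

/-- if two different powers of `p ^ (1 / log p)` hit the same period of `p'`, then `p = p'` -/
theorem prime_inj {p p' : ℕ} (hp : p.Prime) (hp' : p'.Prime) {d n : ℤ} (hd : d ≠ 0)
    (h : (d : ℝ) * Real.log p' = n * Real.log p) : p' = p := by
  have h1 : (d.natAbs : ℝ) * Real.log p' = n.natAbs * Real.log p := by
    have hl' : 0 ≤ Real.log p' := Real.log_natCast_nonneg _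
    have hl : 0 ≤ Real.log p := Real.log_natCast_nonneg _
    have := congrArg abs h
    rw [abs_mul, abs_mul, abs_of_nonneg hl', abs_of_nonneg hl] at this
    rw [Nat.cast_natAbs, Nat.cast_natAbs]
    push_cast
    exact this
  have h2 : Real.log ((p' ^ d.natAbs : ℕ) : ℝ) = Real.log ((p ^ n.natAbs : ℕ) : ℝ) := by
    push_cast
    rw [Real.log_pow, Real.log_pow]
    exact h1
  have h3 : ((p' ^ d.natAbs : ℕ) : ℝ) = ((p ^ n.natAbs : ℕ) : ℝ) :=
    Real.log_injOn_pos (Set.mem_Ioi.2 (by exact_mod_cast pow_pos hp'.pos _))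
      (Set.mem_Ioi.2 (by exact_mod_cast pow_pos hp.pos _)) h2
  have h4 : p' ^ d.natAbs = p ^ n.natAbs := by exact_mod_cast h3
  have h5 : p' ∣ p ^ n.natAbs := by
    rw [← h4]
    exact dvd_pow_self _ (Int.natAbs_ne_zero.2 hd)
  exact (Nat.prime_dvd_prime_iff_eq hp' hp).1 (hp'.dvd_of_dvd_pow h5)

/-- the points `t_m` -/
noncomputable def tm (p : ℕ) (z : ℂ) (m : ℕ) : ℝ := (z.arg + 2 * Real.pi * m) / Real.log p

theorem tm_pow {p : ℕ} (hp : p.Prime) {z : ℂ} (hz : ‖z‖ = 1) (m : ℕ) :
    (p : ℂ) ^ (-(Complex.I * tm p z m)) = z⁻¹ := by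
  have hp0 : (p : ℂ) ≠ 0 := by exact_mod_cast hp.ne_zero
  have hlog : Real.log p ≠ 0 := (Real.log_pos (by exact_mod_cast hp.one_lt)).ne'
  have hlogc : (Real.log p : ℂ) ≠ 0 := by exact_mod_cast hlog
  have hz' : z = Complex.exp (z.arg * Complex.I) := by
    have := Complex.norm_mul_exp_arg_mul_I z
    rw [hz] at this
    simpa using this.symm
  rw [Complex.cpow_def_of_ne_zero hp0, ← Complex.natCast_log]
  have h1 : (Real.log p : ℂ) * (-(Complex.I * (tm p z m : ℂ))) =
      -(z.arg * Complex.I) + ((-m : ℤ) : ℂ) * (2 * Real.pi * Complex.I) := by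
    unfold tm
    push_cast
    have hlogc' : Complex.log (p : ℂ) ≠ 0 := by
      rw [← Complex.natCast_log]
      exact hlogc
    have h2 : Complex.log (p : ℂ) * (-(Complex.I * ((z.arg + 2 * Real.pi * m) /
        Complex.log (p : ℂ)))) = -(Complex.I * (z.arg + 2 * Real.pi * m)) := by
      field_simp
    rw [h2]
    ring
  rw [h1, Complex.exp_add, Complex.exp_int_mul_two_pi_mul_I, mul_one, Complex.exp_neg]
  conv_rhs => rw [hz']

theorem bad_sub {p p' : ℕ} (hp : p.Prime) (hp' : p'.Prime) (hne : p' ≠ p) (z h : ℂ) :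
    {m : ℕ | h * (p' : ℂ) ^ (-(Complex.I * tm p z m)) = 1}.Subsingleton := by
  intro m hm m' hm'
  by_contra hmm
  apply hne
  have hp0 : (p' : ℂ) ≠ 0 := by exact_mod_cast hp'.ne_zero
  have hlog : Real.log p ≠ 0 := (Real.log_pos (by exact_mod_cast hp.one_lt)).ne'
  simp only [Set.mem_ofPred_eq] at hm hm'
  have hh : h ≠ 0 := by
    rintro rfl
    simp at hm
  have he : (p' : ℂ) ^ (-(Complex.I * tm p z m)) = (p' : ℂ) ^ (-(Complex.I * tm p z m')) :=
    mul_left_cancel₀ hh (hm.trans hm'.symm)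
  rw [Complex.cpow_def_of_ne_zero hp0, Complex.cpow_def_of_ne_zero hp0, ← Complex.natCast_log,
    Complex.exp_eq_exp_iff_exists_int] at he
  obtain ⟨n, hn⟩ := he
  have hI : Complex.I * ((Real.log p' : ℂ) * (tm p z m' - tm p z m)) =
      Complex.I * (n * (2 * Real.pi)) := by
    linear_combination hn
  have h2 : (Real.log p' : ℂ) * (tm p z m' - tm p z m) = n * (2 * Real.pi) :=
    mul_left_cancel₀ Complex.I_ne_zero hI
  have h3 : Real.log p' * (tm p z m' - tm p z m) = n * (2 * Real.pi) := by exact_mod_cast h2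
  unfold tm at h3
  have h4 : (((m' : ℤ) - m : ℤ) : ℝ) * Real.log p' = n * Real.log p := by
    push_cast
    have hpi := Real.pi_ne_zero
    field_simp at h3
    have h5 : 2 * Real.pi * (((m' : ℝ) - m) * Real.log p') = 2 * Real.pi * (n * Real.log p) := by
      linear_combination h3
    exact mul_left_cancel₀ (by positivity) h5
  exact prime_inj hp hp' (by omega) h4

open Classical in
theorem fe3_key {ι : Type} [Fintype ι] (L : ι → DL.LF) (c : ι → ℤ) (B : Finset ℕ) (hG : Gd L)
    (hB : ∀ p ∈ B, p.Prime)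
    (hs : ∀ s : ℂ, 0 < s.im → oe L c B s = oe L c B (1 - (starRingEnd ℂ) s)) (p : ℕ) (hp : p ∈ B)
    (z : ℂ) (hz : ‖z‖ = 1) :
    ∑ i, c i * ∑ j, (if (L i).h j p = z then (1 : ℤ) else 0) = 0 := by
  have hpp := hB p hp
  set Bad : Set ℕ := ⋃ q ∈ B.erase p, ⋃ i, ⋃ j,
    {m : ℕ | (L i).h j q * (q : ℂ) ^ (-(Complex.I * tm p z m)) = 1} with hBad
  have hfin : Bad.Finite := by
    refine Set.Finite.biUnion (Finset.finite_toSet _) fun q hq => ?_
    refine Set.finite_iUnion fun i => Set.finite_iUnion fun j => ?_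
    have hq' := Finset.mem_erase.1 hq
    exact (bad_sub hpp (hB q hq'.2) hq'.1 z _).finite
  obtain ⟨m, hm1, hm2⟩ : ∃ m : ℕ, 1 ≤ m ∧ m ∉ Bad := by
    by_contra hcon
    push Not at hcon
    have : (Set.Ici 1 : Set ℕ) ⊆ Bad := fun m hm => hcon m hm
    exact (Set.Ici_infinite 1) (hfin.subset this)
  have hlog : 0 < Real.log p := Real.log_pos (by exact_mod_cast hpp.one_lt)
  have ht : 0 < tm p z m := by
    unfold tm
    apply div_pos _ hlog
    have h1 := Complex.neg_pi_lt_arg z
    have h2 : (1 : ℝ) ≤ m := by exact_mod_cast hm1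
    nlinarith [Real.pi_pos]
  set t := tm p z m with htdef
  have h1 := hs (Complex.I * t) (by simpa using ht)
  have hz0 : z ≠ 0 := by
    rintro rfl
    simp at hz
  have hL : oe L c B (Complex.I * t) =
      ∑ i, c i * ∑ j, (if (L i).h j p = z then (1 : ℤ) else 0) := by
    unfold oe
    rw [← Finset.add_sum_erase B _ hp]
    have hA : ∑ q ∈ B.erase p, ∑ i, c i * ∑ j,
        (if (L i).h j q * (q : ℂ) ^ (-(Complex.I * (t : ℂ))) = 1 then (1 : ℤ) else 0) = 0 := by
      refine Finset.sum_eq_zero fun q hq => Finset.sum_eq_zero fun i _ => ?_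
      rw [Finset.sum_eq_zero, mul_zero]
      intro j _
      rw [if_neg]
      intro hcon
      apply hm2
      rw [hBad]
      simp only [Set.mem_iUnion]
      exact ⟨q, hq, i, j, hcon⟩
    rw [hA, add_zero]
    refine Finset.sum_congr rfl fun i _ => ?_
    congr 1
    refine Finset.sum_congr rfl fun j _ => ?_
    have hpw := tm_pow hpp hz m
    rw [← htdef] at hpw
    rw [hpw]
    congr 1
    apply propext
    rw [mul_inv_eq_one₀ hz0]
  have hR : oe L c B (1 - (starRingEnd ℂ) (Complex.I * t)) = 0 := by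
    unfold oe
    refine Finset.sum_eq_zero fun q hq => Finset.sum_eq_zero fun i _ => ?_
    rw [Finset.sum_eq_zero, mul_zero]
    intro j _
    rw [if_neg]
    intro hcon
    have hq := hB q hq
    have hn := congrArg norm hcon
    have hq1 : (1 : ℝ) < q := by exact_mod_cast hq.one_lt
    rw [norm_mul, Complex.norm_natCast_cpow_of_pos hq.pos, norm_one] at hn
    have hre : (-(1 - (starRingEnd ℂ) (Complex.I * t))).re = -1 := by simp
    rw [hre, Real.rpow_neg_one] at hn
    have hle : ‖(L i).h j q‖ ≤ 1 := by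
      rcases hG.2 i j q hq with h | h
      · rw [h, norm_zero]; exact zero_le_one
      · exact h.le
    have hlt : (q : ℝ)⁻¹ < 1 := inv_lt_one_of_one_lt₀ hq1
    have hpos : 0 < (q : ℝ)⁻¹ := inv_pos.2 (by linarith)
    have : ‖(L i).h j q‖ * (q : ℝ)⁻¹ < 1 := by
      calc ‖(L i).h j q‖ * (q : ℝ)⁻¹ ≤ 1 * (q : ℝ)⁻¹ := mul_le_mul_of_nonneg_right hle hpos.le
        _ < 1 := by rw [one_mul]; exact hlt
    linarith
  rw [hL, hR] at h1
  exact h1

theorem pf_FE3 : T_FE3 := by
  classical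
  intro ι _ L c B hG hB hs p hp k hk
  have hpp := hB p hp
  unfold ps
  have hk0 : k ≠ 0 := by omega
  -- group by the values
  set S : Finset ℂ := Finset.univ.biUnion fun i => Finset.univ.image fun j => (L i).h j p
    with hS
  have h1 : ∀ i, ∑ j, (L i).h j p ^ k =
      ∑ z ∈ S, z ^ k * ∑ j, (if (L i).h j p = z then (1 : ℂ) else 0) := by
    intro i
    rw [show (∑ z ∈ S, z ^ k * ∑ j, (if (L i).h j p = z then (1 : ℂ) else 0)) =
        ∑ j, ∑ z ∈ S, (if (L i).h j p = z then z ^ k else 0) from ?_]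
    · refine Finset.sum_congr rfl fun j _ => ?_
      rw [Finset.sum_ite_eq, if_pos]
      rw [hS]
      exact Finset.mem_biUnion.2 ⟨i, Finset.mem_univ _, Finset.mem_image.2 ⟨j, Finset.mem_univ _, rfl⟩⟩
    · rw [Finset.sum_comm]
      refine Finset.sum_congr rfl fun z _ => ?_
      rw [Finset.mul_sum]
      refine Finset.sum_congr rfl fun j _ => ?_
      split_ifs <;> simp
  calc ∑ i, (c i : ℂ) * ∑ j, (L i).h j p ^ k
      = ∑ z ∈ S, z ^ k * ((∑ i, c i * ∑ j, (if (L i).h j p = z then (1 : ℤ) else 0) : ℤ) : ℂ) := by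
        simp_rw [h1]
        push_cast
        simp_rw [Finset.mul_sum]
        rw [Finset.sum_comm]
        refine Finset.sum_congr rfl fun z _ => Finset.sum_congr rfl fun i _ =>
          Finset.sum_congr rfl fun j _ => ?_
        ring
    _ = 0 := by
        refine Finset.sum_eq_zero fun z hz => ?_
        rw [hS, Finset.mem_biUnion] at hz
        obtain ⟨i, -, hi⟩ := hz
        obtain ⟨j, -, rfl⟩ := Finset.mem_image.1 hi
        rcases hG.2 i j p hpp with h | h
        · rw [h, zero_pow hk0, zero_mul]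
        · rw [fe3_key L c B hG hB hs p hp _ h]
          simp

end Pool.Agent.H79.RC
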